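import Pool.Agent.Lib.MP_39c2b7_co.Interfaces2

/-!
# HSEQ and HLINK: hub sequences and the links of the neighbours of a hub
-/

set_option autoImplicit false

namespace StrongArb.H70

open StrongArb

/-- elements of a link at equal positions -/
theorem getElem_congr_idx {V : Type} (l : List V) {i j : ℕ} (hi : i < l.length) (hj : j < l.length)
    (h : i = j) : l[i] = l[j] := by subst h; rfl

/-- HSEQ -/
theorem hseq (A : LinkApi) : HubSeqStatement := by
  classical
  intro V G hG h
  obtain ⟨l, hl⟩ := hG.link h
  have hlen : 4 ≤ l.length := hl.len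
  have hpos : 0 < l.length := by omega
  have hdg : dg G h = l.length := A.dg V G h l hl
  -- the sequence of neighbours
  let n : ℕ → V := fun i => l[i % l.length]'(Nat.mod_lt _ hpos)
  have hn : ∀ i, n i = l[i % l.length]'(Nat.mod_lt _ hpos) := fun i => rfl
  have hnper : ∀ i, n (i + l.length) = n i := by
    intro i
    rw [hn, hn]
    exact getElem_congr_idx l _ _ (Nat.add_mod_right i l.length)
  have hadj : ∀ i, G.Adj (n i) (n (i + 1)) := by
    intro i
    rw [hn, hn]
    rw [hl.adj]
    left
    rw [Nat.mod_add_mod]
  have hhn : ∀ i, G.Adj h (n i) := by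
    intro i
    rw [← hl.mem]
    exact List.getElem_mem _
  -- the other common neighbour
  let oth : V → V → V := fun x y =>
    if hz : ∃ z, z ≠ h ∧ ∀ w, (G.Adj w x ∧ G.Adj w y) ↔ (w = h ∨ w = z) then hz.choose else h
  have hoth : ∀ i, oth (n i) (n (i + 1)) ≠ h ∧
      ∀ w, (G.Adj w (n i) ∧ G.Adj w (n (i + 1))) ↔ (w = h ∨ w = oth (n i) (n (i + 1))) := by
    intro i
    have hz : ∃ z, z ≠ h ∧ ∀ w, (G.Adj w (n i) ∧ G.Adj w (n (i + 1))) ↔ (w = h ∨ w = z) := by
      obtain ⟨l', hl'⟩ := hG.link (n i)
      obtain ⟨a, b, hab, -, hc⟩ := A.common V G (n i) (n (i + 1)) l' hl' (hadj i)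
      have h1 : h = a ∨ h = b := (hc h).1 ⟨hhn i, hhn (i + 1)⟩
      rcases h1 with h1 | h1
      · exact ⟨b, fun e => hab (h1.symm.trans e.symm), fun w => by rw [hc w, h1]⟩
      · refine ⟨a, fun e => hab (e.trans h1), fun w => ?_⟩
        rw [hc w, h1]
        exact or_comm
    have e : oth (n i) (n (i + 1)) = hz.choose := dif_pos hz
    rw [e]
    exact hz.choose_spec
  refine ⟨n, fun i => oth (n i) (n (i + 1)), ?_⟩
  rw [hdg]
  refine ⟨hlen, hnper, ?_, ?_, fun i => (hoth i).1, fun i x => (hoth i).2 x⟩
  · intro i
    have e : i + l.length + 1 = i + 1 + l.length := by omega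
    show oth (n (i + l.length)) (n (i + l.length + 1)) = oth (n i) (n (i + 1))
    rw [e, hnper, hnper]
  · have e : (List.range l.length).map n = l := by
      apply List.ext_getElem
      · simp
      · intro i h1 h2
        rw [List.getElem_map, List.getElem_range, hn]
        exact getElem_congr_idx l _ _ (Nat.mod_eq_of_lt h2)
    rw [e]
    exact hl

theorem mod_ne {D i : ℕ} (hD : 4 ≤ D) : i % D ≠ (i + 2) % D := by
  intro h
  have h1 : (i + 2) ≡ (i + 0) [MOD D] := by
    show (i + 2) % D = (i + 0) % D
    rw [Nat.add_zero]
    exact h.symm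
  have h2 : 2 ≡ 0 [MOD D] := Nat.ModEq.add_left_cancel' i h1
  have h3 : 2 % D = 0 := by
    have := h2
    unfold Nat.ModEq at this
    simpa using this
  rw [Nat.mod_eq_of_lt (by omega)] at h3
  omega

/-- the values of a hub sequence, read modulo the degree -/
theorem HubSeq_mod {V : Type} {G : SimpleGraph V} {h : V} {n o : ℕ → V} {D : ℕ}
    (H : HubSeq G h n o D) (i : ℕ) : n (i % D) = n i := by
  have hp : ∀ k j, n (j + D * k) = n j := by
    intro k
    induction k with
    | zero => intro j; simp
    | succ k ih =>
      intro j
      have e : j + D * (k + 1) = (j + D * k) + D := by ring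
      rw [e, H.perN, ih]
  have := hp (i / D) (i % D)
  rw [Nat.mod_add_div] at this
  exact this.symm

theorem HubSeq_getElem {V : Type} {G : SimpleGraph V} {h : V} {n o : ℕ → V} {D : ℕ}
    (H : HubSeq G h n o D) (i : ℕ) (hi : i % D < ((List.range D).map n).length) :
    ((List.range D).map n)[i % D] = n i := by
  rw [List.getElem_map, List.getElem_range]
  exact HubSeq_mod H i

theorem HubSeq_adj_hub {V : Type} {G : SimpleGraph V} {h : V} {n o : ℕ → V} {D : ℕ}
    (H : HubSeq G h n o D) (i : ℕ) : G.Adj h (n i) := by
  have hD := H.four
  have hi : i % D < ((List.range D).map n).length := by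
    simpa using Nat.mod_lt i (by omega : 0 < D)
  rw [← H.link.mem, ← HubSeq_getElem H i hi]
  exact List.getElem_mem _

theorem HubSeq_adj_succ {V : Type} {G : SimpleGraph V} {h : V} {n o : ℕ → V} {D : ℕ}
    (H : HubSeq G h n o D) (i : ℕ) : G.Adj (n i) (n (i + 1)) := by
  have hD := H.four
  have hi : i % D < ((List.range D).map n).length := by
    simpa using Nat.mod_lt i (by omega : 0 < D)
  have hi' : (i + 1) % D < ((List.range D).map n).length := by
    simpa using Nat.mod_lt (i + 1) (by omega : 0 < D)
  rw [← HubSeq_getElem H i hi, ← HubSeq_getElem H (i + 1) hi', H.link.adj]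
  left
  simp

theorem HubSeq_ne {V : Type} {G : SimpleGraph V} {h : V} {n o : ℕ → V} {D : ℕ}
    (H : HubSeq G h n o D) (i : ℕ) : n i ≠ n (i + 2) := by
  have hD := H.four
  have hi : i % D < ((List.range D).map n).length := by
    simpa using Nat.mod_lt i (by omega : 0 < D)
  have hi' : (i + 2) % D < ((List.range D).map n).length := by
    simpa using Nat.mod_lt (i + 2) (by omega : 0 < D)
  intro e
  rw [← HubSeq_getElem H i hi, ← HubSeq_getElem H (i + 2) hi'] at e
  exact mod_ne hD ((H.link.nodup.getElem_inj_iff).1 e)

/-- the link of a neighbour of the hub, in general form -/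
theorem nb_link (A : LinkApi) {V : Type} {G : SimpleGraph V} (hG : MinCE G) {h : V} {n o : ℕ → V}
    {D : ℕ} (H : HubSeq G h n o D) (i : ℕ) :
    ∃ m : List V, IsLink G (n (i + 1)) m ∧ ∃ hm : 4 ≤ m.length,
      m[0] = h ∧ m[1] = n (i + 2) ∧ m[2] = o (i + 1) ∧ m[m.length - 2] = o i ∧
        m[m.length - 1] = n i := by
  obtain ⟨l, hl⟩ := hG.link (n (i + 1))
  have a1 : G.Adj (n (i + 1)) h := (HubSeq_adj_hub H (i + 1)).symm
  have a2 : G.Adj (n (i + 1)) (n (i + 2)) := HubSeq_adj_succ H (i + 1)
  have a3 : G.Adj h (n (i + 2)) := HubSeq_adj_hub H (i + 2)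
  obtain ⟨l', hl', hlen⟩ := A.first V G (n (i + 1)) h (n (i + 2)) l hl a1 a2 a3
  have hL : 4 ≤ (h :: n (i + 2) :: l').length := hl'.len
  refine ⟨h :: n (i + 2) :: l', hl', hL, rfl, rfl, ?_⟩
  generalize hm : (h :: n (i + 2) :: l') = m at *
  have m0 : m[0] = h := by subst hm; rfl
  have m1 : m[1] = n (i + 2) := by subst hm; rfl
  -- position of `n i`
  have hlast : m[m.length - 1] = n i := by
    have hmem : n i ∈ m := (hl'.mem (n i)).2 (HubSeq_adj_succ H i).symm
    obtain ⟨j, hj, hje⟩ := List.getElem_of_mem hmem
    have hadj : G.Adj m[0] m[j] := by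
      rw [m0, hje]
      exact HubSeq_adj_hub H i
    rw [hl'.adj] at hadj
    rcases hadj with h1 | h1
    · rw [Nat.zero_add, Nat.mod_eq_of_lt (by omega)] at h1
      subst h1
      rw [m1] at hje
      exact absurd hje.symm (HubSeq_ne H i)
    · have h2 : j + 1 = m.length := by
        by_contra hne
        rw [Nat.mod_eq_of_lt (by omega)] at h1
        omega
      rw [← hje]
      exact getElem_congr_idx m _ _ (by omega)
  have h2 : m[2] = o (i + 1) := by
    have b1 : G.Adj m[2] (n (i + 1)) :=
      ((hl'.mem _).1 (List.getElem_mem _)).symm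
    have b2 : G.Adj m[2] (n (i + 2)) := by
      rw [← m1, hl'.adj]
      right
      rw [Nat.mod_eq_of_lt (by omega)]
    rcases (H.apex (i + 1) m[2]).1 ⟨b1, b2⟩ with e | e
    · exfalso
      rw [← m0] at e
      have := (hl'.nodup.getElem_inj_iff).1 e
      omega
    · exact e
  have h3 : m[m.length - 2] = o i := by
    have b1 : G.Adj m[m.length - 2] (n (i + 1)) :=
      ((hl'.mem _).1 (List.getElem_mem _)).symm
    have b2 : G.Adj m[m.length - 2] (n i) := by
      rw [← hlast, hl'.adj]
      left
      rw [Nat.mod_eq_of_lt (by omega)]
      omega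
    rcases (H.apex i m[m.length - 2]).1 ⟨b2, b1⟩ with e | e
    · exfalso
      rw [← m0] at e
      have := (hl'.nodup.getElem_inj_iff).1 e
      omega
    · exact e
  exact ⟨h2, h3, hlast⟩

/-- HLINK -/
theorem hlink (A : LinkApi) : HubLinkStatement := by
  intro V G hG h n o D H
  refine ⟨?_, ?_⟩
  · intro i hd
    obtain ⟨m, hm, h4, e0, e1, e2, e3, e4⟩ := nb_link A hG H i
    have hlen : m.length = 4 := by rw [← A.dg V G _ m hm, hd]
    have e3' : m[2] = o i := by
      rw [← e3]
      exact getElem_congr_idx m _ _ (by omega)
    have e4' : m[3] = n i := by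
      rw [← e4]
      exact getElem_congr_idx m _ _ (by omega)
    refine ⟨e3'.symm.trans e2, ?_⟩
    have : m = [h, n (i + 2), o (i + 1), n i] := by
      apply List.ext_getElem
      · rw [hlen]; rfl
      · intro j h1 h2
        have hj : j < 4 := by omega
        interval_cases j
        · exact e0
        · exact e1
        · exact e2
        · exact e4'
    rw [← this]
    exact hm
  · intro i hd
    obtain ⟨m, hm, h4, e0, e1, e2, e3, e4⟩ := nb_link A hG H i
    have hlen : m.length = dg G (n (i + 1)) := (A.dg V G _ m hm).symm
    refine ⟨(m.drop 3).take (m.length - 5), ?_, ?_⟩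
    · rw [List.length_take, List.length_drop]
      omega
    · have : m = [h, n (i + 2), o (i + 1)] ++ (m.drop 3).take (m.length - 5) ++ [o i, n i] := by
        apply List.ext_getElem
        · simp only [List.length_append, List.length_take, List.length_drop, List.length_cons,
            List.length_nil]
          omega
        · intro j h1 h2
          by_cases j0 : j < 3
          · rw [List.getElem_append_left (by simp; omega), List.getElem_append_left (by simpa using j0)]
            interval_cases j
            · exact e0
            · exact e1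
            · exact e2
          · by_cases j1 : j < m.length - 2
            · rw [List.getElem_append_left (by simp; omega),
                List.getElem_append_right (by simp; omega), List.getElem_take,
                List.getElem_drop]
              apply getElem_congr_idx
              simp only [List.length_cons, List.length_nil]
              omega
            · have hl3 : ([h, n (i + 2), o (i + 1)] ++
                  (m.drop 3).take (m.length - 5)).length = m.length - 2 := by
                simp only [List.length_append, List.length_take, List.length_drop,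
                  List.length_cons, List.length_nil]
                omega
              rw [List.getElem_append_right (by rw [hl3]; omega)]
              have hj : j = m.length - 2 ∨ j = m.length - 1 := by omega
              rcases hj with hj | hj
              · subst hj
                rw [e3]
                simp only [hl3, Nat.sub_self, List.getElem_cons_zero]
              · subst hj
                rw [e4]
                have : m.length - 1 - ([h, n (i + 2), o (i + 1)] ++
                  (m.drop 3).take (m.length - 5)).length = 1 := by rw [hl3]; omega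
                simp only [this, List.getElem_cons_succ, List.getElem_cons_zero]
      rw [← this]
      exact hm

end StrongArb.H70
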